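import Pool.Agent.W591.GC.RigJ

/-!
# GC-RIG, GC-RIGL: rigidity of the Bernstein-Sato polynomial, multiplicities
-/

set_option autoImplicit false

namespace Pool.Agent.W591.GC

open Polynomial Pool.Agent.H628R4.TP

variable {σ : Type} {S : Submonoid (MvPolynomial σ ℂ)} {f : MvPolynomial σ ℂ}

/-- `J_1` is generated by the monic polynomial of least degree -/
lemma J_dvd {b : ℂ[X]} (hm : b.Monic) (h1 : J S f 1 b)
    (hmin : ∀ b' : ℂ[X], b'.Monic → J S f 1 b' → b.natDegree ≤ b'.natDegree) {c : ℂ[X]}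
    (hc : J S f 1 c) : b ∣ c := by
  rw [← modByMonic_eq_zero_iff_dvd hm]
  by_contra h0
  have hr : J S f 1 (c %ₘ b) := by
    have e : c %ₘ b = c + (-(c /ₘ b)) * b := by
      have := modByMonic_add_div c b
      linear_combination this
    rw [e]
    exact J_add hc (J_mul _ h1)
  have hl : (c %ₘ b).leadingCoeff ≠ 0 := leadingCoeff_ne_zero.2 h0
  have h2 : (C ((c %ₘ b).leadingCoeff)⁻¹ * (c %ₘ b)).Monic :=
    monic_C_mul_of_mul_leadingCoeff_eq_one (inv_mul_cancel₀ hl)
  have h3 := hmin _ h2 (J_mul _ hr)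
  rw [natDegree_C_mul (inv_ne_zero hl)] at h3
  have h4 : (c %ₘ b).degree < b.degree := degree_modByMonic_lt c hm
  rw [degree_eq_natDegree h0, degree_eq_natDegree hm.ne_zero] at h4
  have h5 : (c %ₘ b).natDegree < b.natDegree := by exact_mod_cast h4
  omega

/-- elements of `J_l` vanish at `r` to order `l` -/
lemma J_mult (δ : Derivation ℤ ℂ ℂ) {b : ℂ[X]} (hm : b.Monic) (h1 : J S f 1 b)
    (hmin : ∀ b' : ℂ[X], b'.Monic → J S f 1 b' → b.natDegree ≤ b'.natDegree) {r : ℂ}
    (hr : b.eval r = 0) (hr1 : b.eval (r - 1) ≠ 0) (hδ : δ r ≠ 0) : ∀ (l : ℕ) (c : ℂ[X]),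
    J S f l c → (X - C r) ^ l ∣ c := by
  intro l
  induction l with
  | zero => intro c _; simp
  | succ l ih =>
    intro c hc
    by_cases h0 : c = 0
    · rw [h0]; exact dvd_zero _
    have hbc : (X - C r) ∣ c :=
      (dvd_iff_isRoot.2 hr).trans (J_dvd hm h1 hmin (J_one hc))
    obtain ⟨h, e, hh⟩ := exists_eq_pow_rootMultiplicity_mul_and_not_dvd c h0 r
    have hpos : 0 < rootMultiplicity r c := (rootMultiplicity_pos h0).2 (dvd_iff_isRoot.1 hbc)
    obtain ⟨k, hk⟩ : ∃ k, rootMultiplicity r c = k + 1 := ⟨_, (Nat.succ_pred_eq_of_pos hpos).symm⟩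
    rw [hk] at e
    have hd : (X - C r) ^ l ∣ Dp δ c := by
      have h2 := ih _ (J_der δ h1 hc)
      have hco : IsCoprime ((X - C r) ^ l) (b.comp (X - 1)) := by
        refine IsCoprime.pow_left ?_
        refine (irreducible_X_sub_C r).coprime_iff_not_dvd.2 ?_
        rw [dvd_iff_isRoot, IsRoot.def, eval_comp]
        simpa using hr1
      exact hco.dvd_of_dvd_mul_left h2
    have hD : Dp δ c = (X - C r) ^ k * (-((k + 1 : ℕ) : ℂ[X]) * C (δ r) * h + (X - C r) * Dp δ h) := by
      conv_lhs => rw [e]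
      rw [Dp_mul, Dp_pow, Dp_lin]
      ring
    have hlk : l ≤ k := by
      by_contra hlk
      push Not at hlk
      have h3 : (X - C r) ^ (k + 1) ∣ Dp δ c := (pow_dvd_pow _ hlk).trans hd
      rw [hD, pow_succ] at h3
      have h4 := (mul_dvd_mul_iff_left (pow_ne_zero k (X_sub_C_ne_zero r))).1 h3
      rw [dvd_iff_isRoot, IsRoot.def] at h4
      simp only [eval_add, eval_mul, eval_neg, eval_natCast, eval_C, eval_sub, eval_X, sub_self,
        zero_mul, add_zero] at h4
      have h5 : h.eval r ≠ 0 := fun h5 => hh (dvd_iff_isRoot.2 h5)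
      have h6 : ((k + 1 : ℕ) : ℂ) ≠ 0 := by exact_mod_cast Nat.succ_ne_zero k
      rcases mul_eq_zero.1 h4 with h7 | h7
      · rcases mul_eq_zero.1 h7 with h8 | h8
        · exact h6 (neg_eq_zero.1 h8)
        · exact hδ h8
      · exact h5 h7
    rw [e]
    exact Dvd.dvd.mul_right (pow_dvd_pow _ (by omega)) _

/-- `∏_{i < l} b(X + i)` -/
noncomputable def BB (b : ℂ[X]) (l : ℕ) : ℂ[X] := ∏ i ∈ Finset.range l, b.comp (X + C (i : ℂ))

lemma J_BB {b : ℂ[X]} (h1 : J S f 1 b) (l : ℕ) : J S f l (BB b l) := by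
  induction l with
  | zero => simpa [BB] using J_zero
  | succ l ih =>
    unfold BB
    rw [Finset.prod_range_succ]
    exact J_comp ih h1

lemma monic_BB {b : ℂ[X]} (hm : b.Monic) (l : ℕ) : (BB b l).Monic := by
  unfold BB
  exact monic_prod_of_monic _ _ fun i _ => hm.comp_X_add_C _

lemma mult_comp (b : ℂ[X]) (r a : ℂ) :
    rootMultiplicity r (b.comp (X + C a)) = rootMultiplicity (r + a) b := by
  rw [rootMultiplicity_eq_rootMultiplicity, rootMultiplicity_eq_rootMultiplicity (p := b),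
    comp_assoc]
  congr 2
  simp only [add_comp, X_comp, C_comp, C_add]
  ring

lemma mult_BB {b : ℂ[X]} (hm : b.Monic) (r : ℂ) (l : ℕ) :
    rootMultiplicity r (BB b l) = ∑ i ∈ Finset.range l, rootMultiplicity (r + i) b := by
  induction l with
  | zero => simp [BB]
  | succ l ih =>
    have h := monic_BB hm (l + 1)
    unfold BB at h ih ⊢
    rw [Finset.prod_range_succ] at h ⊢
    rw [Finset.sum_range_succ, rootMultiplicity_mul h.ne_zero, ih, mult_comp]

lemma mult_le {b : ℂ[X]} (hm : b.Monic) (r : ℂ) (l : ℕ) :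
    rootMultiplicity r (BB b l) ≤ b.natDegree := by
  classical
  rw [mult_BB hm]
  have h1 : ∀ i ∈ Finset.range l, rootMultiplicity (r + i) b = b.roots.count (r + i) :=
    fun i _ => (count_roots b).symm
  rw [Finset.sum_congr rfl h1]
  have h2 : ∑ i ∈ Finset.range l, b.roots.count (r + i) =
      ∑ a ∈ (Finset.range l).image (fun i : ℕ => r + (i : ℂ)), b.roots.count a := by
    rw [Finset.sum_image]
    intro i _ j _ hij
    exact_mod_cast add_left_cancel hij
  rw [h2]
  calc _ ≤ ∑ a ∈ (Finset.range l).image (fun i : ℕ => r + (i : ℂ)) ∪ b.roots.toFinset,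
        b.roots.count a := Finset.sum_le_sum_of_subset Finset.subset_union_left
    _ = b.roots.card := Multiset.sum_count_eq_card fun a ha =>
        Finset.mem_union_right _ (Multiset.mem_toFinset.2 ha)
    _ ≤ b.natDegree := card_roots' b

/-- all roots are constants -/
lemma root_const (δ : Derivation ℤ ℂ ℂ) {b : ℂ[X]} (hm : b.Monic) (h1 : J S f 1 b)
    (hmin : ∀ b' : ℂ[X], b'.Monic → J S f 1 b' → b.natDegree ≤ b'.natDegree) {r : ℂ}
    (hr : b.eval r = 0) : δ r = 0 := by
  by_contra hδ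
  -- replace `r` by `r - i`
  obtain ⟨i, hi, hi'⟩ : ∃ i : ℕ, b.eval (r - i) = 0 ∧ b.eval (r - (i + 1 : ℕ)) ≠ 0 := by
    by_contra hcon
    push Not at hcon
    have hall : ∀ i : ℕ, b.eval (r - i) = 0 := by
      intro i
      induction i with
      | zero => simpa using hr
      | succ i ih => exact hcon i ih
    refine hm.ne_zero (Polynomial.eq_zero_of_infinite_isRoot b ?_)
    refine Set.infinite_of_injective_forall_mem (f := fun i : ℕ => r - (i : ℂ)) ?_ hall
    intro i j hij
    exact_mod_cast sub_right_injective hij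
  have hδ' : δ (r - i) ≠ 0 := by
    rw [map_sub, δ_nat, sub_zero]
    exact hδ
  have h2 : b.eval (r - i - 1) ≠ 0 := by
    rw [sub_sub]
    exact_mod_cast hi'
  have h3 := J_mult δ hm h1 hmin hi h2 hδ' (b.natDegree + 1) _ (J_BB h1 _)
  have h4 := (le_rootMultiplicity_iff (monic_BB hm (b.natDegree + 1)).ne_zero).2 h3
  have h5 := mult_le hm (r - i) (b.natDegree + 1)
  omega

theorem rigid (δ : Derivation ℤ ℂ ℂ) {b : ℂ[X]} (hm : b.Monic) (h1 : J S f 1 b)
    (hmin : ∀ b' : ℂ[X], b'.Monic → J S f 1 b' → b.natDegree ≤ b'.natDegree) (n : ℕ) :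
    δ (b.coeff n) = 0 := by
  have key : ∀ m : Multiset ℂ, (∀ a ∈ m, δ a = 0) → Dp δ (m.map fun a => X - C a).prod = 0 := by
    intro m
    induction m using Multiset.induction_on with
    | empty =>
      intro _
      ext n
      rw [coeff_Dp, Multiset.map_zero, Multiset.prod_zero, coeff_one, coeff_zero]
      split_ifs <;> simp
    | cons a m ih =>
      intro h
      rw [Multiset.map_cons, Multiset.prod_cons, Dp_mul, Dp_lin, h a (Multiset.mem_cons_self a m),
        ih fun a' ha' => h a' (Multiset.mem_cons_of_mem ha')]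
      simp
  have h2 : b = (b.roots.map fun a => X - C a).prod :=
    (IsAlgClosed.splits b).eq_prod_roots_of_monic hm
  rw [← coeff_Dp, h2, key, coeff_zero]
  intro a ha
  exact root_const δ hm h1 hmin (isRoot_of_mem_roots ha)

end Pool.Agent.W591.GC
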