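import Pool.Agent.W422.GC.Stms
import Pool.Agent.W591.GC.RigM

/-!
# GC-RIG and GC-RIGL
-/

set_option autoImplicit false

namespace Pool.Agent.W591.GC

open MvPolynomial Pool.Agent.H628R4.TP Pool.Agent.W422.GC

variable {N : ℕ}

/-- the submonoid of the polynomials with constant term `1` -/
noncomputable def S1 (N : ℕ) : Submonoid (MvPolynomial (Fin N) ℂ) :=
  (⊥ : Submonoid ℂ).comap (constantCoeff : MvPolynomial (Fin N) ℂ →+* ℂ)

lemma mem_S1 {g : MvPolynomial (Fin N) ℂ} : g ∈ S1 N ↔ constantCoeff g = 1 := by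
  unfold S1
  rw [Submonoid.mem_comap, Submonoid.mem_bot]

lemma sum_apply (P : ℕ →₀ weylS (Fin N)) (z : ℂ) (x : MvPolynomial (Fin N) ℂ) :
    (P.sum fun m R => z ^ m • (R : EE (Fin N))) x =
      P.sum fun m R => (z ^ m) • (R : Module.End ℂ (MvPolynomial (Fin N) ℂ)) x := by
  unfold Finsupp.sum
  rw [LinearMap.sum_apply]
  rfl

lemma J_iff (S : Submonoid (MvPolynomial (Fin N) ℂ)) (f : MvPolynomial (Fin N) ℂ)
    (b : Polynomial ℂ) : J S f 1 b ↔ ∃ g ∈ S, FE g f b := by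
  constructor
  · rintro ⟨g, hg, Q, hQ, e⟩
    obtain ⟨P, hP⟩ := hQ.toFinsupp
    refine ⟨g, hg, P, fun s => ?_⟩
    rw [e s, hP, sum_apply]
  · rintro ⟨g, hg, P, hP⟩
    refine ⟨g, hg, _, PW.ofFinsupp P, fun s => ?_⟩
    rw [hP s, sum_apply]

lemma fe_one (f : MvPolynomial (Fin N) ℂ) (b : Polynomial ℂ) : FE 1 f b ↔ IsBFunction f b := by
  unfold FE IsBFunction
  simp only [one_mul]

lemma J_bot (f : MvPolynomial (Fin N) ℂ) (b : Polynomial ℂ) :
    J (⊥ : Submonoid (MvPolynomial (Fin N) ℂ)) f 1 b ↔ IsBFunction f b := by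
  rw [J_iff, ← fe_one]
  constructor
  · rintro ⟨g, hg, h⟩
    rw [Submonoid.mem_bot.1 hg] at h
    exact h
  · intro h
    exact ⟨1, one_mem _, h⟩

theorem main : S_RIG := by
  intro N f b _ hb δ n
  obtain ⟨hm, h1, hmin⟩ := hb
  exact rigid δ hm ((J_bot f b).2 h1) (fun b' hm' h' => hmin b' hm' ((J_bot f b').1 h')) n

theorem mainL : S_RIGL := by
  intro N f b _ hm h1 hmin δ n
  refine rigid (S := S1 N) (f := f) δ hm ?_ (fun b' hm' h' => hmin b' hm' ?_) n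
  · obtain ⟨g, hg, h⟩ := h1
    exact (J_iff _ _ _).2 ⟨g, mem_S1.2 hg, h⟩
  · obtain ⟨g, hg, h⟩ := (J_iff _ _ _).1 h'
    exact ⟨g, mem_S1.1 hg, h⟩

end Pool.Agent.W591.GC
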