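import Pool.Agent.H628R4.TP.Defs

/-!
# GC-RIG, GC-RIGL: rigidity of the Bernstein-Sato polynomial, operators

`PW` : polynomial families of elements of the Weyl algebra; the Ore lemma; the derivation on the
coefficients.
-/

set_option autoImplicit false

namespace Pool.Agent.W591.GC

open MvPolynomial Pool.Agent.H628R4.TP

variable {σ : Type}

/-- operators -/
abbrev EE (σ : Type) := Module.End ℂ (MvPolynomial σ ℂ)

/-- multiplication operator -/
noncomputable abbrev ml (p : MvPolynomial σ ℂ) : EE σ := LinearMap.mulLeft ℂ p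

lemma ml_X_mem (i : σ) : ml (X i : MvPolynomial σ ℂ) ∈ weylS σ :=
  Algebra.subset_adjoin (Or.inl ⟨i, rfl⟩)

lemma pd_mem (i : σ) : ((pderiv i : Derivation ℂ (MvPolynomial σ ℂ)
    (MvPolynomial σ ℂ)) : MvPolynomial σ ℂ →ₗ[ℂ] MvPolynomial σ ℂ) ∈ weylS σ :=
  Algebra.subset_adjoin (Or.inr ⟨i, rfl⟩)

lemma ml_mem (p : MvPolynomial σ ℂ) : ml p ∈ weylS σ := by
  induction p using MvPolynomial.induction_on with
  | C a =>
    have : ml (C a : MvPolynomial σ ℂ) = algebraMap ℂ (EE σ) a := by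
      refine LinearMap.ext fun x => ?_
      rw [Module.algebraMap_end_apply, LinearMap.mulLeft_apply, C_mul']
    rw [this]
    exact Subalgebra.algebraMap_mem _ _
  | add p q hp hq =>
    have : ml (p + q) = ml p + ml q := by
      refine LinearMap.ext fun x => ?_
      simp [add_mul]
    rw [this]
    exact add_mem hp hq
  | mul_X p i hp =>
    have : ml (p * X i) = ml p * ml (X i) := by
      refine LinearMap.ext fun x => ?_
      simp
    rw [this]
    exact mul_mem hp (ml_X_mem i)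

/-- polynomial families of elements of the Weyl algebra -/
inductive PW : (ℂ → EE σ) → Prop
  | const (R : EE σ) (h : R ∈ weylS σ) : PW (fun _ => R)
  | add {Q Q' : ℂ → EE σ} : PW Q → PW Q' → PW (fun z => Q z + Q' z)
  | zsmul {Q : ℂ → EE σ} : PW Q → PW (fun z => z • Q z)

namespace PW

lemma csmul {Q : ℂ → EE σ} (h : PW Q) (c : ℂ) : PW (fun z => c • Q z) := by
  induction h with
  | const R h => exact PW.const _ (Subalgebra.smul_mem _ h c)
  | add _ _ h1 h2 => simpa only [smul_add] using h1.add h2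
  | zsmul _ h1 =>
    have := h1.zsmul
    simpa only [smul_comm c] using this

lemma neg {Q : ℂ → EE σ} (h : PW Q) : PW (fun z => - Q z) := by
  have e : (fun z => - Q z) = fun z => (-1 : ℂ) • Q z := by
    funext z
    refine LinearMap.ext fun x => ?_
    rw [LinearMap.neg_apply, LinearMap.smul_apply, neg_one_smul]
  rw [e]
  exact h.csmul (-1)

lemma sub {Q Q' : ℂ → EE σ} (h : PW Q) (h' : PW Q') : PW (fun z => Q z - Q' z) := by
  simpa only [sub_eq_add_neg] using h.add h'.neg

lemma zero : PW (fun _ => (0 : EE σ)) := PW.const _ (zero_mem _)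

lemma constMul {Q : ℂ → EE σ} (h : PW Q) {R : EE σ} (hR : R ∈ weylS σ) :
    PW (fun z => R * Q z) := by
  induction h with
  | const R' h => exact PW.const _ (mul_mem hR h)
  | add _ _ h1 h2 => simpa only [mul_add] using h1.add h2
  | zsmul _ h1 =>
    have := h1.zsmul
    simpa only [mul_smul_comm] using this

lemma mul {Q Q' : ℂ → EE σ} (h : PW Q) (h' : PW Q') : PW (fun z => Q z * Q' z) := by
  induction h with
  | const R h => exact h'.constMul h
  | add _ _ h1 h2 => simpa only [add_mul] using h1.add h2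
  | zsmul _ h1 =>
    have := h1.zsmul
    simpa only [smul_mul_assoc] using this

lemma mulConst {Q : ℂ → EE σ} (h : PW Q) {R : EE σ} (hR : R ∈ weylS σ) :
    PW (fun z => Q z * R) := h.mul (PW.const R hR)

lemma shift {Q : ℂ → EE σ} (h : PW Q) (c : ℂ) : PW (fun z => Q (z + c)) := by
  induction h with
  | const R h => exact PW.const _ h
  | add _ _ h1 h2 => exact h1.add h2
  | zsmul _ h1 =>
    have := h1.zsmul.add (h1.csmul c)
    simpa only [add_smul] using this

/-- multiplication by a polynomial in `s` -/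
lemma polySmul {Q : ℂ → EE σ} (h : PW Q) (p : Polynomial ℂ) : PW (fun z => p.eval z • Q z) := by
  induction p using Polynomial.induction_on' with
  | add p q hp hq => simpa only [Polynomial.eval_add, add_smul] using hp.add hq
  | monomial n a =>
    simp only [Polynomial.eval_monomial]
    have key : PW (fun z => z ^ n • Q z) := by
      induction n with
      | zero => simpa using h
      | succ n ih =>
        have := ih.zsmul
        simpa only [smul_smul, pow_succ'] using this
    simpa only [smul_smul] using key.csmul a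

/-- conversion to a finitely supported family -/
lemma toFinsupp {Q : ℂ → EE σ} (h : PW Q) : ∃ P : ℕ →₀ weylS σ, ∀ z : ℂ,
    Q z = P.sum fun m R => z ^ m • (R : EE σ) := by
  classical
  induction h with
  | const R h =>
    refine ⟨Finsupp.single 0 ⟨R, h⟩, fun z => ?_⟩
    rw [Finsupp.sum_single_index (by simp)]
    simp
  | add _ _ h1 h2 =>
    obtain ⟨P1, h1⟩ := h1
    obtain ⟨P2, h2⟩ := h2
    refine ⟨P1 + P2, fun z => ?_⟩
    beta_reduce
    rw [Finsupp.sum_add_index' (by simp) (by intro a b c; simp [smul_add]), h1, h2]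
  | zsmul _ h1 =>
    obtain ⟨P1, h1⟩ := h1
    refine ⟨P1.mapDomain Nat.succ, fun z => ?_⟩
    beta_reduce
    rw [Finsupp.sum_mapDomain_index (by simp) (by intro a b c; simp [smul_add]), h1,
      Finsupp.smul_sum]
    refine Finsupp.sum_congr fun m _ => ?_
    rw [smul_smul, Nat.succ_eq_add_one, pow_succ']

lemma ofFinsupp (P : ℕ →₀ weylS σ) : PW (fun z => P.sum fun m R => z ^ m • (R : EE σ)) := by
  classical
  induction P using Finsupp.induction_linear with
  | zero => simpa using PW.zero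
  | add P1 P2 h1 h2 =>
    have : ∀ z : ℂ, ((P1 + P2).sum fun m R => z ^ m • (R : EE σ)) =
        (P1.sum fun m R => z ^ m • (R : EE σ)) + (P2.sum fun m R => z ^ m • (R : EE σ)) :=
      fun z => Finsupp.sum_add_index' (by simp) (by intro a b c; simp [smul_add])
    simp only [this]
    exact h1.add h2
  | single n R =>
    have : ∀ z : ℂ, ((Finsupp.single n R).sum fun m R => z ^ m • (R : EE σ)) =
        ((Polynomial.X ^ n : Polynomial ℂ)).eval z • (R : EE σ) := by
      intro z
      rw [Finsupp.sum_single_index (by simp)]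
      simp
    simp only [this]
    exact (PW.const _ R.2).polySmul _

end PW

/-! ### Ore lemma -/

lemma ore_weyl (g : MvPolynomial σ ℂ) {R : EE σ} (hR : R ∈ weylS σ) : ∀ n : ℕ, ∃ K : ℕ,
    ∃ R' ∈ weylS σ, ml (g ^ K) * R = R' * ml (g ^ n) := by
  unfold weylS at hR
  induction hR using Algebra.adjoin_induction with
  | mem x hx =>
    intro n
    rcases hx with ⟨i, rfl⟩ | ⟨i, rfl⟩
    · refine ⟨n, _, ml_X_mem i, LinearMap.ext fun x => ?_⟩
      simp only [Module.End.mul_apply, LinearMap.mulLeft_apply]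
      ring
    · refine ⟨n + 1, ml g * ((pderiv i : Derivation ℂ (MvPolynomial σ ℂ)
        (MvPolynomial σ ℂ)) : MvPolynomial σ ℂ →ₗ[ℂ] MvPolynomial σ ℂ) -
          ml ((n : MvPolynomial σ ℂ) * pderiv i g), sub_mem (mul_mem (ml_mem g) (pd_mem i))
          (ml_mem _), LinearMap.ext fun x => ?_⟩
      simp only [Module.End.mul_apply, LinearMap.mulLeft_apply, LinearMap.sub_apply,
        Derivation.coeFn_coe]
      rw [pderiv_mul, pderiv_pow]
      rcases n with _ | n
      · simp
      · simp only [Nat.add_sub_cancel]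
        ring
  | algebraMap a =>
    intro n
    refine ⟨n, _, Subalgebra.algebraMap_mem _ a, LinearMap.ext fun x => ?_⟩
    simp only [Module.End.mul_apply, LinearMap.mulLeft_apply, Module.algebraMap_end_apply]
    rw [mul_smul_comm]
  | add x y hx hy h1 h2 =>
    intro n
    obtain ⟨K1, R1, hR1, e1⟩ := h1 n
    obtain ⟨K2, R2, hR2, e2⟩ := h2 n
    refine ⟨K1 + K2, ml (g ^ K2) * R1 + ml (g ^ K1) * R2,
      add_mem (mul_mem (ml_mem _) hR1) (mul_mem (ml_mem _) hR2), ?_⟩
    have h12 : ml (g ^ (K1 + K2)) = ml (g ^ K2) * ml (g ^ K1) := by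
      refine LinearMap.ext fun x => ?_
      simp only [Module.End.mul_apply, LinearMap.mulLeft_apply]
      ring
    have h21 : ml (g ^ (K1 + K2)) = ml (g ^ K1) * ml (g ^ K2) := by
      refine LinearMap.ext fun x => ?_
      simp only [Module.End.mul_apply, LinearMap.mulLeft_apply]
      ring
    rw [mul_add, add_mul, mul_assoc, mul_assoc, ← e1, ← e2, ← mul_assoc, ← mul_assoc, ← h12, ← h21]
  | mul x y hx hy h1 h2 =>
    intro n
    obtain ⟨K2, R2, hR2, e2⟩ := h2 n
    obtain ⟨K1, R1, hR1, e1⟩ := h1 K2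
    refine ⟨K1, R1 * R2, mul_mem hR1 hR2, ?_⟩
    rw [← mul_assoc, e1, mul_assoc, e2, mul_assoc]

lemma ore (g : MvPolynomial σ ℂ) {Q : ℂ → EE σ} (hQ : PW Q) : ∀ n : ℕ, ∃ K : ℕ,
    ∃ Q' : ℂ → EE σ, PW Q' ∧ ∀ z, ml (g ^ K) * Q z = Q' z * ml (g ^ n) := by
  induction hQ with
  | const R h =>
    intro n
    obtain ⟨K, R', hR', e⟩ := ore_weyl g h n
    exact ⟨K, fun _ => R', PW.const _ hR', fun _ => e⟩
  | add _ _ h1 h2 =>
    intro n
    obtain ⟨K1, R1, hR1, e1⟩ := h1 n
    obtain ⟨K2, R2, hR2, e2⟩ := h2 n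
    refine ⟨K1 + K2, _, (hR1.constMul (ml_mem (g ^ K2))).add (hR2.constMul (ml_mem (g ^ K1))),
      fun z => ?_⟩
    have h12 : ml (g ^ (K1 + K2)) = ml (g ^ K2) * ml (g ^ K1) := by
      refine LinearMap.ext fun x => ?_
      simp only [Module.End.mul_apply, LinearMap.mulLeft_apply]
      ring
    have h21 : ml (g ^ (K1 + K2)) = ml (g ^ K1) * ml (g ^ K2) := by
      refine LinearMap.ext fun x => ?_
      simp only [Module.End.mul_apply, LinearMap.mulLeft_apply]
      ring
    rw [mul_add, add_mul, mul_assoc, mul_assoc, ← e1, ← e2, ← mul_assoc, ← mul_assoc, ← h12, ← h21]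
  | zsmul _ h1 =>
    intro n
    obtain ⟨K, R', hR', e⟩ := h1 n
    refine ⟨K, _, hR'.zsmul, fun z => ?_⟩
    rw [mul_smul_comm, e, smul_mul_assoc]

/-! ### The derivation on the coefficients -/

/-- `δ` on the coefficients -/
noncomputable def Dd (δ : Derivation ℤ ℂ ℂ) (p : MvPolynomial σ ℂ) : MvPolynomial σ ℂ :=
  ∑ n ∈ p.support, monomial n (δ (coeff n p))

variable (δ : Derivation ℤ ℂ ℂ)

lemma coeff_Dd (p : MvPolynomial σ ℂ) (n : σ →₀ ℕ) : coeff n (Dd δ p) = δ (coeff n p) := by
  classical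
  unfold Dd
  rw [coeff_sum]
  simp only [coeff_monomial]
  rw [Finset.sum_ite_eq' p.support n (fun m => δ (coeff m p))]
  split_ifs with h
  · rfl
  · rw [notMem_support_iff.1 h, map_zero]

lemma Dd_add (p q : MvPolynomial σ ℂ) : Dd δ (p + q) = Dd δ p + Dd δ q := by
  ext n
  simp only [coeff_Dd, coeff_add, map_add]

lemma Dd_mul (p q : MvPolynomial σ ℂ) : Dd δ (p * q) = Dd δ p * q + p * Dd δ q := by
  classical
  ext n
  rw [coeff_Dd, coeff_mul, coeff_add, coeff_mul, coeff_mul, map_sum, ← Finset.sum_add_distrib]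
  refine Finset.sum_congr rfl fun x _ => ?_
  rw [Derivation.leibniz, coeff_Dd, coeff_Dd, smul_eq_mul, smul_eq_mul]
  ring

lemma Dd_C (a : ℂ) : Dd δ (C a : MvPolynomial σ ℂ) = C (δ a) := by
  classical
  ext n
  rw [coeff_Dd, coeff_C, coeff_C]
  split_ifs <;> simp

lemma Dd_smul (a : ℂ) (p : MvPolynomial σ ℂ) : Dd δ (a • p) = δ a • p + a • Dd δ p := by
  rw [← C_mul', Dd_mul, Dd_C, C_mul', C_mul']

lemma δ_nat (n : ℕ) : δ (n : ℂ) = 0 := Derivation.map_natCast δ n

lemma Dd_X (i : σ) : Dd δ (X i : MvPolynomial σ ℂ) = 0 := by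
  classical
  ext n
  rw [coeff_Dd, coeff_X, coeff_zero]
  split_ifs <;> simp

lemma Dd_one : Dd δ (1 : MvPolynomial σ ℂ) = 0 := by
  rw [← C_1, Dd_C, Derivation.map_one_eq_zero, C_0]

lemma Dd_pow (p : MvPolynomial σ ℂ) (n : ℕ) :
    Dd δ (p ^ (n + 1)) = ((n + 1 : ℕ) : ℂ) • (p ^ n * Dd δ p) := by
  induction n with
  | zero => simp
  | succ n ih =>
    rw [pow_succ, Dd_mul, ih, ← C_mul', ← C_mul']
    push_cast
    simp only [map_add, map_natCast, map_one]
    ring

lemma Dd_pderiv (i : σ) (p : MvPolynomial σ ℂ) : Dd δ (pderiv i p) = pderiv i (Dd δ p) := by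
  ext n
  rw [coeff_Dd, coeff_pderiv, coeff_pderiv, coeff_Dd, Derivation.leibniz]
  have : δ ((n i : ℂ) + 1) = 0 := by
    have := δ_nat δ (n i + 1)
    push_cast at this
    exact this
  rw [this, smul_zero, zero_add, smul_eq_mul, mul_comm]

lemma comm_weyl {R : EE σ} (hR : R ∈ weylS σ) :
    ∃ R' ∈ weylS σ, ∀ x, Dd δ (R x) = R' x + R (Dd δ x) := by
  unfold weylS at hR
  induction hR using Algebra.adjoin_induction with
  | mem x hx =>
    rcases hx with ⟨i, rfl⟩ | ⟨i, rfl⟩
    · refine ⟨0, zero_mem _, fun x => ?_⟩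
      simp only [LinearMap.mulLeft_apply]
      rw [Dd_mul, Dd_X]
      simp
    · refine ⟨0, zero_mem _, fun x => ?_⟩
      simp only [Derivation.coeFn_coe]
      rw [Dd_pderiv]
      simp
  | algebraMap a =>
    refine ⟨_, Subalgebra.algebraMap_mem _ (δ a), fun x => ?_⟩
    simp only [Module.algebraMap_end_apply]
    exact Dd_smul δ a x
  | add x y hx hy h1 h2 =>
    obtain ⟨R1, hR1, e1⟩ := h1
    obtain ⟨R2, hR2, e2⟩ := h2
    refine ⟨R1 + R2, add_mem hR1 hR2, fun z => ?_⟩
    rw [LinearMap.add_apply, Dd_add, e1, e2, LinearMap.add_apply, LinearMap.add_apply]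
    abel
  | mul x y hx hy h1 h2 =>
    obtain ⟨R1, hR1, e1⟩ := h1
    obtain ⟨R2, hR2, e2⟩ := h2
    refine ⟨R1 * y + x * R2, add_mem (mul_mem hR1 hy) (mul_mem hx hR2), fun z => ?_⟩
    rw [Module.End.mul_apply, e1, e2, LinearMap.add_apply, Module.End.mul_apply,
      Module.End.mul_apply, Module.End.mul_apply, map_add]
    abel

lemma comm_PW {Q : ℂ → EE σ} (hQ : PW Q) :
    ∃ Q' : ℂ → EE σ, PW Q' ∧ ∀ (s : ℕ) x, Dd δ (Q s x) = Q' s x + Q s (Dd δ x) := by
  induction hQ with
  | const R h =>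
    obtain ⟨R', hR', e⟩ := comm_weyl δ h
    exact ⟨_, PW.const _ hR', fun _ => e⟩
  | add _ _ h1 h2 =>
    obtain ⟨R1, hR1, e1⟩ := h1
    obtain ⟨R2, hR2, e2⟩ := h2
    refine ⟨_, hR1.add hR2, fun s x => ?_⟩
    rw [LinearMap.add_apply, Dd_add, e1, e2, LinearMap.add_apply, LinearMap.add_apply]
    abel
  | zsmul _ h1 =>
    obtain ⟨R1, hR1, e1⟩ := h1
    refine ⟨_, hR1.zsmul, fun s x => ?_⟩
    rw [LinearMap.smul_apply, Dd_smul, δ_nat, zero_smul, zero_add, e1, smul_add,
      LinearMap.smul_apply, LinearMap.smul_apply]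

end Pool.Agent.W591.GC
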