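import Pool.Agent.W591.GC.RigCore

/-!
# GC-RIG, GC-RIGL: rigidity of the Bernstein-Sato polynomial, the ideals `J_l`
-/

set_option autoImplicit false

namespace Pool.Agent.W591.GC

open MvPolynomial Pool.Agent.H628R4.TP

variable {σ : Type} {S : Submonoid (MvPolynomial σ ℂ)} {f : MvPolynomial σ ℂ}

/-- `g c(s) f ^ s = P(s) f ^ (s + l)` for some `g ∈ S` and a polynomial family `P` -/
def J (S : Submonoid (MvPolynomial σ ℂ)) (f : MvPolynomial σ ℂ) (l : ℕ) (c : Polynomial ℂ) :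
    Prop :=
  ∃ g ∈ S, ∃ Q : ℂ → EE σ, PW Q ∧
    ∀ s : ℕ, g * (C (c.eval (s : ℂ)) * f ^ s) = Q s (f ^ (s + l))

lemma J_add {l : ℕ} {c c' : Polynomial ℂ} (h : J S f l c) (h' : J S f l c') :
    J S f l (c + c') := by
  obtain ⟨g, hg, Q, hQ, e⟩ := h
  obtain ⟨g', hg', Q', hQ', e'⟩ := h'
  refine ⟨g * g', mul_mem hg hg', _, (hQ.constMul (ml_mem g')).add (hQ'.constMul (ml_mem g)),
    fun s => ?_⟩
  rw [LinearMap.add_apply, Module.End.mul_apply, Module.End.mul_apply, LinearMap.mulLeft_apply,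
    LinearMap.mulLeft_apply, ← e s, ← e' s, Polynomial.eval_add, C_add]
  ring

lemma J_mul {l : ℕ} {c : Polynomial ℂ} (a : Polynomial ℂ) (h : J S f l c) :
    J S f l (a * c) := by
  obtain ⟨g, hg, Q, hQ, e⟩ := h
  refine ⟨g, hg, _, hQ.polySmul a, fun s => ?_⟩
  rw [LinearMap.smul_apply, ← e s, Polynomial.eval_mul, C_mul, ← C_mul']
  ring

lemma J_anti {l : ℕ} {c : Polynomial ℂ} (h : J S f (l + 1) c) : J S f l c := by
  obtain ⟨g, hg, Q, hQ, e⟩ := h
  refine ⟨g, hg, _, hQ.mulConst (ml_mem f), fun s => ?_⟩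
  rw [Module.End.mul_apply, LinearMap.mulLeft_apply, e s, ← pow_succ', add_assoc]

lemma J_one {l : ℕ} {c : Polynomial ℂ} (h : J S f (l + 1) c) : J S f 1 c := by
  induction l with
  | zero => exact h
  | succ l ih => exact ih (J_anti h)

lemma J_comp {l : ℕ} {c b : Polynomial ℂ} (h : J S f l c) (hb : J S f 1 b) :
    J S f (l + 1) (c * b.comp (Polynomial.X + Polynomial.C (l : ℂ))) := by
  obtain ⟨g, hg, Q, hQ, e⟩ := h
  obtain ⟨g1, hg1, Q1, hQ1, e1⟩ := hb
  obtain ⟨K, Q', hQ', o⟩ := ore g1 hQ 1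
  refine ⟨g1 ^ K * g, mul_mem (pow_mem hg1 K) hg, _, hQ'.mul (hQ1.shift l), fun s => ?_⟩
  have e2 := e1 (s + l)
  have o2 := LinearMap.congr_fun (o s) (C (b.eval ((s + l : ℕ) : ℂ)) * f ^ (s + l))
  simp only [Module.End.mul_apply, LinearMap.mulLeft_apply, pow_one] at o2
  rw [e2, C_mul', LinearMap.map_smul, ← C_mul', ← e s] at o2
  rw [Module.End.mul_apply, ← add_assoc, ← Nat.cast_add, ← o2, Polynomial.eval_mul,
    Polynomial.eval_comp, C_mul]
  simp only [Polynomial.eval_add, Polynomial.eval_X, Polynomial.eval_C, Nat.cast_add]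
  ring

lemma J_zero : J S f 0 1 := by
  refine ⟨1, one_mem _, _, PW.const 1 (one_mem _), fun s => ?_⟩
  simp

/-! ### the derivation on the coefficients of polynomials in `s` -/

variable (δ : Derivation ℤ ℂ ℂ)

/-- `δ` on the coefficients -/
noncomputable def Dp (p : Polynomial ℂ) : Polynomial ℂ :=
  ∑ n ∈ p.support, Polynomial.monomial n (δ (p.coeff n))

lemma coeff_Dp (p : Polynomial ℂ) (n : ℕ) : (Dp δ p).coeff n = δ (p.coeff n) := by
  classical
  unfold Dp
  rw [Polynomial.finsetSum_coeff]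
  simp only [Polynomial.coeff_monomial]
  rw [Finset.sum_ite_eq' p.support n (fun m => δ (p.coeff m))]
  split_ifs with h
  · rfl
  · rw [Polynomial.notMem_support_iff.1 h, map_zero]

lemma Dp_add (p q : Polynomial ℂ) : Dp δ (p + q) = Dp δ p + Dp δ q := by
  ext n
  simp only [coeff_Dp, Polynomial.coeff_add, map_add]

lemma Dp_mul (p q : Polynomial ℂ) : Dp δ (p * q) = Dp δ p * q + p * Dp δ q := by
  classical
  ext n
  rw [coeff_Dp, Polynomial.coeff_mul, Polynomial.coeff_add, Polynomial.coeff_mul,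
    Polynomial.coeff_mul, map_sum, ← Finset.sum_add_distrib]
  refine Finset.sum_congr rfl fun x _ => ?_
  rw [Derivation.leibniz, coeff_Dp, coeff_Dp, smul_eq_mul, smul_eq_mul]
  ring

lemma Dp_lin (a : ℂ) : Dp δ (Polynomial.X - Polynomial.C a) = - Polynomial.C (δ a) := by
  ext n
  rw [coeff_Dp, Polynomial.coeff_sub, Polynomial.coeff_X, Polynomial.coeff_C, Polynomial.coeff_neg,
    Polynomial.coeff_C, map_sub]
  split_ifs <;> simp

lemma Dp_pow (p : Polynomial ℂ) (n : ℕ) :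
    Dp δ (p ^ (n + 1)) = ((n + 1 : ℕ) : Polynomial ℂ) * (p ^ n * Dp δ p) := by
  induction n with
  | zero => simp
  | succ n ih =>
    rw [pow_succ, Dp_mul, ih]
    push_cast
    ring

lemma eval_Dp (p : Polynomial ℂ) (s : ℕ) : (Dp δ p).eval (s : ℂ) = δ (p.eval (s : ℂ)) := by
  induction p using Polynomial.induction_on' with
  | add p q hp hq => rw [Dp_add, Polynomial.eval_add, Polynomial.eval_add, map_add, hp, hq]
  | monomial n a =>
    have h1 : Dp δ (Polynomial.monomial n a) = Polynomial.monomial n (δ a) := by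
      ext m
      rw [coeff_Dp, Polynomial.coeff_monomial, Polynomial.coeff_monomial]
      split_ifs <;> simp
    rw [h1, Polynomial.eval_monomial, Polynomial.eval_monomial, Derivation.leibniz]
    have : δ ((s : ℂ) ^ n) = 0 := by
      have := δ_nat δ (s ^ n)
      push_cast at this
      exact this
    rw [this, smul_zero, zero_add, smul_eq_mul, mul_comm]

/-- the key step -/
lemma J_der {l : ℕ} {c b : Polynomial ℂ} (hb : J S f 1 b) (hc : J S f (l + 1) c) :
    J S f l (b.comp (Polynomial.X - 1) * Dp δ c) := by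
  obtain ⟨g, hg, P, hP, e⟩ := hc
  obtain ⟨g1, hg1, P1, hP1, e1⟩ := hb
  obtain ⟨P', hP', hD⟩ := comm_PW δ hP
  obtain ⟨K, P1', hP1', o⟩ := ore g (hP1.shift (-1)) 1
  have q1 := (hP'.constMul (ml_mem (g ^ K * g1 * g))).mulConst (ml_mem f)
  have q2 := ((hP.constMul (ml_mem (g ^ K * g1 * g))).mulConst (ml_mem (Dd δ f))).polySmul
    (Polynomial.X + Polynomial.C ((l : ℂ) + 1))
  have q3 := (hP.constMul (ml_mem (g ^ K * g1 * Dd δ g))).mulConst (ml_mem f)
  have q4 := (((hP1'.mul hP).constMul (ml_mem (g * g * Dd δ f))).mulConst (ml_mem f)).zsmul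
  have q := (((q1.add q2).sub q3).polySmul (b.comp (Polynomial.X - 1))).sub q4
  refine ⟨g ^ K * (g1 * (g * g)), mul_mem (pow_mem hg K) (mul_mem hg1 (mul_mem hg hg)), _, q,
    fun s => ?_⟩
  clear q q1 q2 q3 q4
  -- the equation for `c`
  have h1 := e s
  -- its derivative
  have h2 := congrArg (Dd δ) h1
  rw [hD, Dd_mul, Dd_mul, Dd_C, ← eval_Dp, ← add_assoc, Dd_pow, LinearMap.map_smul, ← C_mul'] at h2
  -- the expansion of the right-hand side
  have hf : f * f ^ (s + l) = f ^ (s + l + 1) := (pow_succ' _ _).symm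
  simp only [LinearMap.sub_apply, LinearMap.add_apply, LinearMap.smul_apply, Module.End.mul_apply,
    LinearMap.mulLeft_apply, hf]
  rw [← add_assoc] at h1
  rw [mul_comm (f ^ (s + l)) (Dd δ f)] at h2
  generalize hd : (P s) (Dd δ f * f ^ (s + l)) = d at h2 ⊢
  generalize ha' : (P' s) (f ^ (s + l + 1)) = a' at h2 ⊢
  -- the last term
  have o1 := LinearMap.congr_fun (o s) (C (c.eval (s : ℂ)) * f ^ s)
  simp only [Module.End.mul_apply, LinearMap.mulLeft_apply, pow_one] at o1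
  rw [h1, C_mul', LinearMap.map_smul, ← C_mul'] at o1
  rw [← o1, ← h1]
  rw [← C_mul', ← C_mul', ← C_mul', Polynomial.eval_mul, C_mul]
  simp only [Polynomial.eval_comp, Polynomial.eval_sub, Polynomial.eval_X, Polynomial.eval_one,
    Polynomial.eval_add, Polynomial.eval_C]
  push_cast at h2
  rcases s with _ | t
  · simp only [Nat.cast_zero, zero_add, pow_zero, Dd_one, mul_zero, add_zero, mul_one, zero_sub,
      C_0, zero_mul, sub_zero] at h2 ⊢
    linear_combination (g ^ K * g1 * g * C (Polynomial.eval (-1) b)) * h2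
  · rw [Dd_pow, ← C_mul'] at h2
    have e2 := e1 t
    have ht : ((t + 1 : ℕ) : ℂ) + -1 = t := by push_cast; ring
    rw [ht, ← e2]
    have ht' : ((t + 1 : ℕ) : ℂ) - 1 = t := by push_cast; ring
    rw [ht']
    have hC : (C (((t + 1 : ℕ) : ℂ) + ((l : ℂ) + 1)) : MvPolynomial σ ℂ) =
        C (((t + 1 : ℕ) : ℂ) + (l : ℂ) + 1) := by rw [add_assoc]
    push_cast at h2 hC ⊢
    rw [hC]
    linear_combination (g ^ K * g1 * g * C (Polynomial.eval (t : ℂ) b)) * h2

end Pool.Agent.W591.GC
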